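import Pool.Agent.U247.BQ.Final

/-!
# Projective modules over `A⟨T⟩` need not be extended from the smooth affinoid algebra `A`

For every field `k` which is complete with respect to a nontrivial non-archimedean absolute value
there are a smooth affinoid `k`-algebra `A` and a finitely generated projective `A⟨T⟩`-module which
is not extended from `A`.

Here `A = k⟨x, y⟩ / (y ^ 2 + π y - x ^ 3 - π x)` with `0 < |π| < 1`, the affinoid algebra of a
subdomain of an elliptic curve.  The residue norm of `A` is multiplicative and its reduction is the
coordinate ring `B` of the cuspidal curve `y ^ 2 = x ^ 3`.  Schanuel's invertible module over `B[T]`,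
which is not extended from `B`, is lifted to `A°⟨T⟩`, and the reduction of a generator of the module
over `A⟨T⟩` would be a generator of Schanuel's module.
-/

set_option autoImplicit false

namespace Pool.Agent.Results.MP_d3e341_ag.NotExtended

open Pool.Agent.U247.BQ

universe u

/-- **The answer to the Bass-Quillen question for smooth affinoid algebras is negative over every
field.**  For every complete non-archimedean field `k` (with a nontrivial absolute value) there are
a smooth affinoid `k`-algebra `A` and a finitely generated projective module over the ring
`A⟨T⟩ = TS Unit A` of restricted power series which is not isomorphic to `A⟨T⟩ ⊗ N` for any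
finitely generated projective `A`-module `N`. -/
theorem result (k : Type u) [NontriviallyNormedField k] [CompleteSpace k] [IsUltrametricDist k] :
    ∃ (A : Type u) (_ : NormedCommRing A) (_ : NormedAlgebra k A) (_ : CompleteSpace A)
      (_ : IsUltrametricDist A), IsSmoothAffinoid k A ∧
      ∃ (M : Type u) (_ : AddCommGroup M) (_ : Module (TS Unit A) M),
        Module.Finite (TS Unit A) M ∧ Module.Projective (TS Unit A) M ∧ ¬ IsExtended A M :=
  final k

end Pool.Agent.Results.MP_d3e341_ag.NotExtended
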